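import Pool.Agent.Helper43.AK.Sum

/-!
# A countable vacillating poset with finite antichains which fails `AK_k` for every `k ≥ 2`
-/

set_option autoImplicit false

open Set

namespace Pool.Agent.Results.MP_1f8616_co.FiniteAntichains

/-- `C` is a saturated chain: a chain, and there are no `x ∉ C` and `y, z ∈ C` with `y < x < z` such that
`C ∪ {x}` is still a chain. -/
def Saturated {P : Type} [PartialOrder P] (C : Set P) : Prop :=
  IsChain (· ≤ ·) C ∧
    ¬ ∃ x, x ∉ C ∧ ∃ y ∈ C, ∃ z ∈ C, y < x ∧ x < z ∧ IsChain (· ≤ ·) (insert x C)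

/-- `Q` is isomorphic to a linear sum, indexed by `ω`, of infinite co-wellfounded orders. -/
def IsOmegaSum (Q : Type) [PartialOrder Q] : Prop :=
  ∃ (D : ℕ → Type) (_ : ∀ i, PartialOrder (D i)),
    (∀ i, Infinite (D i)) ∧ (∀ i, ¬ ∃ s : ℕ → D i, StrictMono s) ∧ Nonempty (Q ≃o Σₗ i, D i)

/-- `P` is vacillating: no saturated chain `C` is such that `C` or the reverse of `C` is a linear sum,
indexed by `ω`, of infinite co-wellfounded orders. -/
def Vacillating (P : Type) [PartialOrder P] : Prop :=
  ¬ ∃ C : Set P, Saturated C ∧ (IsOmegaSum C ∨ IsOmegaSum (OrderDual C))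

/-- The property `AK_k`: there are pairwise disjoint chains `C 1, ..., C k` and a partition of `P` into
pairwise disjoint antichains such that every member `A` of the partition meets at least `min (|A|, k)`
of the chains. -/
def AK (k : ℕ) (P : Type) [PartialOrder P] : Prop :=
  ∃ C : Fin k → Set P, (∀ i, IsChain (· ≤ ·) (C i)) ∧ (∀ i j, i ≠ j → Disjoint (C i) (C j)) ∧
    ∃ (I : Type) (A : I → Set P), (∀ i, IsAntichain (· ≤ ·) (A i)) ∧
      (∀ i j, i ≠ j → Disjoint (A i) (A j)) ∧ (⋃ i, A i) = univ ∧
      ∀ i, min (A i).encard (k : ℕ∞) ≤ {j : Fin k | (A i ∩ C j).Nonempty}.encard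

/-- From an isomorphism with a linear sum to a block function. -/
lemma block_of_isOmegaSum {Q : Type} [PartialOrder Q] (h : IsOmegaSum Q) :
    ∃ f : Q → ℕ, (∀ x y, x ≤ y → f x ≤ f y) ∧ ∀ i, Set.Infinite {x | f x = i} ∧
      ¬ ∃ s : ℕ → Q, StrictMono s ∧ ∀ n, f (s n) = i := by
  obtain ⟨D, hD, hinf, hno, ⟨e⟩⟩ := h
  have key : ∀ (i : ℕ) (w : Σₗ i, D i), (ofLex w).1 = i → ∃ d : D i, w = toLex ⟨i, d⟩ := by
    rintro i w rfl
    exact ⟨(ofLex w).2, rfl⟩
  refine ⟨fun x => (ofLex (e x)).1, ?_, ?_⟩
  · intro x y hxy
    have h1 : e x ≤ e y := e.monotone hxy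
    rcases Sigma.Lex.le_def.1 h1 with h2 | ⟨h2, -⟩
    · exact h2.le
    · exact h2.le
  · intro i
    constructor
    · have hinj : Function.Injective (fun d : D i => e.symm (toLex ⟨i, d⟩)) := by
        intro a b hab
        have h2 := toLex.injective (e.symm.injective hab)
        simpa using h2
      have := hinf i
      refine (Set.infinite_range_of_injective hinj).mono ?_
      rintro _ ⟨d, rfl⟩
      show (ofLex (e (e.symm (toLex ⟨i, d⟩)))).1 = i
      rw [OrderIso.apply_symm_apply]
      rfl
    · rintro ⟨s, hs, hsi⟩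
      choose d hd using fun n => key i (e (s n)) (hsi n)
      refine hno i ⟨d, fun a b hab => ?_⟩
      have h1 : e (s a) < e (s b) := e.strictMono (hs hab)
      rw [hd a, hd b] at h1
      rcases Sigma.Lex.lt_def.1 h1 with h | ⟨h, h'⟩
      · exact absurd h (lt_irrefl _)
      · exact h'

open Pool.Agent.Helper43.AK

/-- There is one countable poset without infinite antichains which is vacillating and fails `AK_k` for
every `k ≥ 2`. -/
theorem result : ∃ (P : Type) (_ : PartialOrder P), Countable P ∧
    (∀ A : Set P, IsAntichain (· ≤ ·) A → A.Finite) ∧ Vacillating P ∧ ∀ k : ℕ, 2 ≤ k → ¬ AK k P := by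
  refine ⟨W, inferInstance, inferInstance, fun A hA => finite_antichain hA, ?_, ?_⟩
  · rintro ⟨C, ⟨hC, hsat⟩, hsum⟩
    have hC' : ∀ p ∈ C, ∀ r ∈ C, p = r ∨ p < r ∨ r < p := by
      intro p hp r hr
      by_cases he : p = r
      · exact Or.inl he
      · rcases hC hp hr he with h | h
        · exact Or.inr (Or.inl (lt_of_le_of_ne h he))
        · exact Or.inr (Or.inr (lt_of_le_of_ne h (Ne.symm he)))
    have hsat' : ∀ x, (∃ y ∈ C, y < x) → (∃ y ∈ C, x < y) → (∀ c ∈ C, c = x ∨ c < x ∨ x < c) → x ∈ C := by
      rintro x ⟨y, hy, hyx⟩ ⟨z, hz, hxz⟩ hall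
      by_contra hx
      refine hsat ⟨x, hx, y, hy, z, hz, hyx, hxz, ?_⟩
      refine hC.insert ?_
      intro c hc hxc
      rcases hall c hc with h | h | h
      · exact absurd h.symm hxc
      · exact Or.inr h.le
      · exact Or.inl h.le
    classical
    rcases hsum with hsum | hsum
    · obtain ⟨f, hf, hfi⟩ := block_of_isOmegaSum hsum
      refine vacillating_aux hC' hsat' (fun x => if h : x ∈ C then f ⟨x, h⟩ else 0) (Or.inl ⟨?_, ?_⟩)
      · intro x hx y hy hxy
        simp only [hx, hy, dif_pos]
        exact hf _ _ hxy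
      · intro i
        constructor
        · intro hfin
          refine (hfi i).1 ((hfin.preimage (f := fun x : C => (x : W)) Subtype.val_injective.injOn).subset ?_)
          intro x hx
          refine ⟨x.2, ?_⟩
          have hx' : f x = i := hx
          show (if h : (x : W) ∈ C then f ⟨x, h⟩ else 0) = i
          rw [dif_pos x.2]
          exact hx'
        · rintro ⟨s, hs, hsC⟩
          refine (hfi i).2 ⟨fun n => ⟨s n, (hsC n).1⟩, fun a b hab => hs hab, fun n => ?_⟩
          have h1 := (hsC n).2
          simp only [(hsC n).1, dif_pos] at h1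
          exact h1
    · obtain ⟨f, hf, hfi⟩ := block_of_isOmegaSum hsum
      refine vacillating_aux hC' hsat'
        (fun x => if h : x ∈ C then f (OrderDual.toDual ⟨x, h⟩) else 0) (Or.inr ⟨?_, ?_⟩)
      · intro x hx y hy hxy
        simp only [hx, hy, dif_pos]
        exact hf _ _ hxy
      · intro i
        constructor
        · intro hfin
          have hinj : Function.Injective (fun x : OrderDual C => ((OrderDual.ofDual x : C) : W)) :=
            Subtype.val_injective.comp OrderDual.ofDual.injective
          refine (hfi i).1 ((hfin.preimage (f := fun x : OrderDual C => ((OrderDual.ofDual x : C) : W))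
            hinj.injOn).subset ?_)
          intro x hx
          refine ⟨(OrderDual.ofDual x).2, ?_⟩
          have hx' : f x = i := hx
          show (if h : ((OrderDual.ofDual x : C) : W) ∈ C then
            f (OrderDual.toDual ⟨((OrderDual.ofDual x : C) : W), h⟩) else 0) = i
          rw [dif_pos (OrderDual.ofDual x).2]
          exact hx'
        · rintro ⟨s, hs, hsC⟩
          refine (hfi i).2 ⟨fun n => OrderDual.toDual ⟨s n, (hsC n).1⟩, fun a b hab => hs hab, fun n => ?_⟩
          have h1 := (hsC n).2
          simp only [(hsC n).1, dif_pos] at h1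
          exact h1
  · rintro k hk ⟨C, hC, hdis, I, A, hA, hAd, hAU, hmeet⟩
    have hmem : ∀ x : W, ∃ i, x ∈ A i := by
      intro x
      have : x ∈ ⋃ i, A i := by rw [hAU]; trivial
      exact Set.mem_iUnion.1 this
    choose g hg using hmem
    have hcls : ∀ i, {x | g x = i} = A i := by
      intro i
      ext x
      constructor
      · intro h
        have h' : g x = i := h
        exact h' ▸ hg x
      · intro h
        by_contra hne
        exact Set.disjoint_left.1 (hAd _ _ hne) (hg x) h
    refine not_AK hk hC hdis (g := g) ?_ ?_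
    · intro i
      rw [hcls i]
      exact hA i
    · intro i
      rw [hcls i]
      have := hmeet i
      simp only [Set.inter_comm] at this ⊢
      exact this

end Pool.Agent.Results.MP_1f8616_co.FiniteAntichains
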